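import Mathlib
import Pool.Agent.H28.Contr4

namespace Pool.Agent.Results.MP_242378_al.Contractible

open Pool.Agent.H28.Contr

theorem result (F : Type) [Field F] [Fintype F] :
    (∃ (R : Type) (_ : Ring R) (_ : MetricSpace R) (ι : ∀ n, Mat F n →+* R), IsCompletion F R ι) ∧
    ∀ (R : Type) [Ring R] [MetricSpace R] (ι : ∀ n, Mat F n →+* R), IsCompletion F R ι →
      ContractibleSpace {x : R // IsUnit x} :=
  ⟨exists_completion F, fun _ _ _ ι h => contractible_of ι h⟩

end Pool.Agent.Results.MP_242378_al.Contractible
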